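import Pool.Agent.MDG.StmtsZ

set_option autoImplicit false

open Finset Pool.Agent.HEC

namespace Pool.Agent.MDG.H1

theorem cnt_eq {A : Type} [Fintype A] (P : A → Prop) [DecidablePred P] :
    cnt P = (univ.filter P).card := by
  unfold cnt
  refine congrArg Finset.card ?_
  ext x
  simp only [mem_filter]

theorem nd2_symm {V : Type} [Fintype V] (H : SimpleGraph V) (p : V → V) (w v : V) :
    nd2 H p w v = nd2 H p v w := by
  classical
  unfold nd2
  rw [cnt_eq, cnt_eq]
  refine card_bij (fun q _ => (q.2, q.1)) ?_ ?_ ?_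
  · intro q hq
    rw [mem_filter] at hq ⊢
    exact ⟨mem_univ _, hq.2.2.1, hq.2.1, hq.2.2.2.symm⟩
  · intro a _ b _ hab
    have h1 := congrArg Prod.fst hab
    have h2 := congrArg Prod.snd hab
    exact Prod.ext h2 h1
  · intro b hb
    rw [mem_filter] at hb
    refine ⟨(b.2, b.1), ?_, rfl⟩
    rw [mem_filter]
    exact ⟨mem_univ _, hb.2.2.1, hb.2.1, hb.2.2.2.symm⟩

theorem nd2_zero {V : Type} [Fintype V] (H : SimpleGraph V) (p : V → V) (hp : ∀ v, p (p v) = p v)
    (w v : V) (hw : p w ≠ w) : nd2 H p w v = 0 := by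
  classical
  unfold nd2
  rw [cnt_eq, card_eq_zero, filter_eq_empty_iff]
  rintro q - ⟨h1, -, -⟩
  apply hw
  rw [← h1]
  exact hp _

theorem dez (h1 : BloStmt) (h2 : DegStmt) (h4 : DgtStmt) (h3 : OrdStmt) : DezStmt := by
  intro V _ H k hk
  obtain ⟨p, hp, hblob, hX⟩ := h1 V H k hk
  classical
  let d : V → V → ℕ := fun w v => if w = v then 0 else nd2 H p w v
  have dsymm : ∀ w v, d w v = d v w := by
    intro w v
    by_cases h : w = v
    · rw [h]
    · have h' : ¬ v = w := fun e => h e.symm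
      simp only [d, if_neg h, if_neg h']
      exact nd2_symm H p w v
  have dself : ∀ w, d w w = 0 := by
    intro w
    simp only [d, if_true]
  have dle : ∀ w v, d w v ≤ nd2 H p w v := by
    intro w v
    by_cases h : w = v
    · simp only [d, if_pos h]
      exact Nat.zero_le _
    · simp only [d, if_neg h]
      exact le_refl _
  have hsparse : ∀ Z ⊆ univ.filter (fun w => p w = w), 2 ≤ Z.card →
      ∃ Y ⊆ Z, Y.Nonempty ∧ Y ≠ Z ∧ ∑ w ∈ Y, ∑ v ∈ Z \ Y, d w v < k := by
    intro Z hZ hcard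
    obtain ⟨Y, hY, hYne, hYX, hsum⟩ := hX Z (fun w hw => (mem_filter.1 (hZ hw)).2) hcard
    refine ⟨Y, hY, hYne, hYX, lt_of_le_of_lt ?_ hsum⟩
    exact sum_le_sum fun w _ => sum_le_sum fun v _ => dle w v
  have hord : ∀ X : Finset V, X.Nonempty → ∃ w ∈ X, ∑ v ∈ X, d w v < 2 * k := by
    intro X hne
    by_cases hsub : X ⊆ univ.filter (fun w => p w = w)
    · exact h2 V d k (univ.filter (fun w => p w = w)) hk dsymm dself hsparse X hsub hne
    · rw [not_subset] at hsub
      obtain ⟨w, hw, hw2⟩ := hsub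
      have hw3 : p w ≠ w := fun e => hw2 (mem_filter.2 ⟨mem_univ _, e⟩)
      refine ⟨w, hw, ?_⟩
      have h0 : ∑ v ∈ X, d w v = 0 := by
        refine sum_eq_zero ?_
        intro v _
        have h4 := dle w v
        rw [nd2_zero H p hp w v hw3] at h4
        omega
      rw [h0]
      omega
  obtain ⟨ord, hinj, hlt⟩ := h3 V d (2 * k) hord
  refine ⟨p, ord, hp, hinj, hblob, ?_, ?_⟩
  · intro w
    refine lt_of_le_of_lt ?_ (hlt w)
    have hstep : ∑ v ∈ univ.filter (fun v => ord w < ord v), d w v =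
        ∑ v ∈ univ.filter (fun v => ord w < ord v), nd2 H p w v := by
      refine sum_congr rfl ?_
      intro v hv
      have hv2 := (mem_filter.1 hv).2
      have hne : ¬ w = v := fun e => by
        rw [e] at hv2
        exact lt_irrefl _ hv2
      simp only [d, if_neg hne]
    rw [hstep]
    unfold nd2
    simp only [cnt_eq]
    refine le_trans (card_le_card ?_) (card_biUnion_le (s := univ.filter (fun v => ord w < ord v))
      (t := fun v => univ.filter fun q : V × V => p q.1 = w ∧ p q.2 = v ∧ H.Adj q.1 q.2))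
    intro q hq
    rw [mem_filter] at hq
    rw [mem_biUnion]
    refine ⟨p q.2, ?_, ?_⟩
    · rw [mem_filter]
      exact ⟨mem_univ _, hq.2.2.2⟩
    · rw [mem_filter]
      exact ⟨mem_univ _, hq.2.1, rfl, hq.2.2.1⟩
  · let X0 : Finset V := univ.filter (fun w => p w = w)
    have hsum := h4 V d k X0 hk dsymm dself hsparse X0 (Subset.refl _)
    have hcard : X0.card ≤ Fintype.card V := card_le_univ _
    have hle : cnt (fun q : V × V => H.Adj q.1 q.2 ∧ p q.1 ≠ p q.2) ≤
        ∑ w ∈ X0, ∑ v ∈ X0, d w v := by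
      rw [← sum_product', cnt_eq]
      have hb : ∀ x ∈ X0 ×ˢ X0, (if x.1 = x.2 then (∅ : Finset (V × V)) else
          univ.filter fun q : V × V => p q.1 = x.1 ∧ p q.2 = x.2 ∧ H.Adj q.1 q.2).card =
          d x.1 x.2 := by
        intro x _
        by_cases h : x.1 = x.2
        · simp only [d, if_pos h, card_empty]
        · simp only [d, if_neg h]
          unfold nd2
          rw [cnt_eq]
      rw [← sum_congr rfl hb]
      refine le_trans (card_le_card ?_) (card_biUnion_le (s := X0 ×ˢ X0)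
        (t := fun x : V × V => if x.1 = x.2 then (∅ : Finset (V × V)) else
          univ.filter fun q : V × V => p q.1 = x.1 ∧ p q.2 = x.2 ∧ H.Adj q.1 q.2))
      intro q hq
      rw [mem_filter] at hq
      rw [mem_biUnion]
      refine ⟨(p q.1, p q.2), ?_, ?_⟩
      · rw [mem_product, mem_filter, mem_filter]
        exact ⟨⟨mem_univ _, hp _⟩, ⟨mem_univ _, hp _⟩⟩
      · have hne : ¬ p q.1 = p q.2 := hq.2.2
        simp only [if_neg hne]
        rw [mem_filter]
        exact ⟨mem_univ _, rfl, rfl, hq.2.1⟩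
    calc cnt (fun q : V × V => H.Adj q.1 q.2 ∧ p q.1 ≠ p q.2)
        ≤ ∑ w ∈ X0, ∑ v ∈ X0, d w v := hle
      _ ≤ 2 * k * X0.card := hsum
      _ ≤ 2 * k * Fintype.card V := Nat.mul_le_mul_left _ hcard

end Pool.Agent.MDG.H1
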